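import Mathlib
import Pool.Agent.W406.HV.Hyp

/-! # Moments of Frobenius for almost all hypersurfaces of odd dimension -/

namespace Pool.Agent.Results.MP_4c4ce6_nt.HypersurfaceMoments

open Finset Pool.Agent.W406.HV

/-- `Ix r D` is the set of exponents of the monomials of degree `D` in `r` variables, so that
`a : Ix r D → ℤ` is a form `F` of degree `D`; `trH a p` is `(#X(F_p) - #P^n(F_p)) / p ^ (n / 2)` for
the hypersurface `X : F = 0` of dimension `n` in `P ^ (n + 1)`;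
`mom m` is `(m - 1)!!` for even `m` and `0` for odd `m`. -/
theorem result (n D : ℕ) (hn : Odd n) (ε : ℝ) (hε : 0 < ε) :
    ∃ c C : ℝ, 0 < c ∧ ∀ (N : ℕ) (b : Ix (n + 2) D → ℤ) (y : ℝ), 1 ≤ y →
      ({a : Ix (n + 2) D → ℤ | (∀ α, |a α - b α| ≤ N) ∧ ∃ x : ℕ, y ≤ x ∧ (x : ℝ) ≤ (N : ℝ) ^ c ∧
        ∃ m : ℕ, m < 2 * ((D + 1) / 2) ∧
        (x : ℝ) ^ (max (1 / 2) ((m : ℝ) / ((2 * ((D + 1) / 2) : ℕ) : ℝ)) + ε) <
          |∑ p ∈ (Icc 1 x).filter Nat.Prime, (trH a p ^ m - mom m)|}.ncard : ℝ) ≤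
        C * y ^ (-ε) * (2 * N + 1) ^ (Fintype.card (Ix (n + 2) D)) :=
  hyp_main n D hn.pos ε hε

end Pool.Agent.Results.MP_4c4ce6_nt.HypersurfaceMoments
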