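import Pool.Agent.W529.ST.Ort4

/-! Joint equidistribution with Frobenius elements and base change, for families in a compact
metric space (the space of conjugacy classes of a compact group) and for all but boundedly many
linearly disjoint Galois extensions. -/

set_option autoImplicit false

namespace Pool.Agent.Results.MP_4c4ce6_nt.JointLaw

open NumberField IsDedekindDomain Filter Topology Pool.Agent.W529.ST
open Pool.Agent.W401.Cheb (GK IsFrob)

open Classical in
/-- statements (1) and (2) at the scale `N` -/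
def Uniform (X : Type) [MetricSpace X] (B : ℕ → ℕ) {K : Type} [Field K] [NumberField K]
    (Fr : HeightOneSpectrum (𝓞 K) → GK K) (T : Finset (Subgroup (GK K))) (N : ℕ) : Prop :=
  ∀ (k : ℕ) (x : HeightOneSpectrum (𝓞 K) → X), 1 ≤ k →
    (T.filter (JointExc Fr x k N)).card ≤ B k ∧
    ∑ U ∈ T.filter (SplitExc Fr x k N), 1 / (Nat.card (GK K ⧸ U) : ℝ) ≤ 4 * B k

/-- the classes `x v` are equidistributed for the probability measure `μ` -/
def Equidistributed {X : Type} [MetricSpace X] [MeasurableSpace X] {K : Type} [Field K]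
    [NumberField K] (x : HeightOneSpectrum (𝓞 K) → X) (μ : MeasureTheory.Measure X) : Prop :=
  ∀ f : X → ℝ, Continuous f → Tendsto (mean K fun v => f (x v)) atTop (𝓝 (∫ y, f y ∂μ))

/-- the integral against `μ` -/
noncomputable def integ {X : Type} [MeasurableSpace X] (μ : MeasureTheory.Measure X)
    (f : X → ℝ) : ℝ := ∫ y, f y ∂μ

open Classical in
/-- statements (3) and (4) -/
def Transfer (X : Type) [MetricSpace X] [MeasurableSpace X] (B : ℕ → ℕ) {K : Type} [Field K]
    [NumberField K] (Fr : HeightOneSpectrum (𝓞 K) → GK K) (T : Finset (Subgroup (GK K))) : Prop :=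
  ∀ (k : ℕ) (x : HeightOneSpectrum (𝓞 K) → X) (μ : MeasureTheory.Measure X), 1 ≤ k →
    Equidistributed x μ →
    ∀ᶠ N : ℕ in atTop, (T.filter (JointDev Fr x (integ μ) k N)).card ≤ B (2 * k) ∧
    ∑ U ∈ T.filter (SplitDev Fr x (integ μ) k N), 1 / (Nat.card (GK K ⧸ U) : ℝ) ≤ 4 * B (2 * k)

theorem result (X : Type) [MetricSpace X] [CompactSpace X] [MeasurableSpace X] :
    ∃ B : ℕ → ℕ, ∀ (K : Type) [Field K] [NumberField K] (Fr : HeightOneSpectrum (𝓞 K) → GK K),
      (∀ v, IsFrob v (Fr v)) → ∀ T : Finset (Subgroup (GK K)),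
      (∀ U ∈ T, U.Normal ∧ IsOpen (U : Set (GK K))) → (∀ U ∈ T, ∀ V ∈ T, U ≠ V → U ⊔ V = ⊤) →
      (∀ᶠ N : ℕ in atTop, Uniform X B Fr T N) ∧ Transfer X B Fr T := by
  classical
  let ν : ℕ → ℕ := fun k => if h : 1 ≤ k then (exists_cells_compact X k h).choose else 0
  have hν : ∀ k, 1 ≤ k → ∃ (κ : X → Fin (ν k)) (cen : Fin (ν k) → X),
      ∀ y, dist y (cen (κ y)) ≤ 1 / (4 * k) := by
    intro k hk
    have h1 : ν k = (exists_cells_compact X k hk).choose := dif_pos hk
    rw [h1]
    exact (exists_cells_compact X k hk).choose_spec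
  refine ⟨fun k => 8 * ν k * k ^ 2, fun K _ _ Fr hFr T hT hT' => ?_⟩
  have hU : ∀ᶠ N : ℕ in atTop, Uniform X (fun k => 8 * ν k * k ^ 2) Fr T N := by
    filter_upwards [joint_bessel hFr T hT hT' zero_lt_one, split_le_two hFr T hT] with N hB hS
    intro k x hk
    obtain ⟨κ, cen, hc⟩ := hν k hk
    have h1 := joint_metric hT hB _ k hk κ cen x fun v => hc _
    have h2 := split_metric hT hB hS _ k hk κ cen x fun v => hc _
    refine ⟨h1, h2.trans (le_of_eq ?_)⟩
    push_cast
    ring
  refine ⟨hU, fun k x μ hk hI => ?_⟩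
  have hkR : (0 : ℝ) < k := by exact_mod_cast hk
  have hc := unif_conv_compact (x := x) (integ μ) (fun f hf => hI f hf.1.continuous)
    (ε := 1 / (2 * (k : ℝ))) (by positivity)
  filter_upwards [hU, hc] with N hN hc
  obtain ⟨h1, h2⟩ := hN (2 * k) x (by omega)
  constructor
  · refine (Finset.card_le_card fun U hU => ?_).trans h1
    obtain ⟨hUT, h⟩ := Finset.mem_filter.1 hU
    exact Finset.mem_filter.2 ⟨hUT, jointDev_exc hk (hT U hUT).2 hc h⟩
  · refine (Finset.sum_le_sum_of_subset_of_nonneg (fun U hU => ?_)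
      fun U _ _ => by positivity).trans h2
    obtain ⟨hUT, h⟩ := Finset.mem_filter.1 hU
    exact Finset.mem_filter.2 ⟨hUT, splitDev_exc hk hc h⟩

end Pool.Agent.Results.MP_4c4ce6_nt.JointLaw
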