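import Pool.Agent.W529.ST.Grp

/-!
# Sato-Tate for all base changes and quadratic twists of a compatible family

`K` is a number field and `ρ` a compatible family over `K` of odd weight as in the problem, with
Sato-Tate group `G = ST_K` (or any compact group containing it, such as `USp`), a compact group with
a two-sided invariant metric.  Since the weight is odd, `z = -1` is in `ST_K`.  For a number field
`E ⊇ K` and `d ∈ 𝓞_E` nonzero let `ρ_{E,d}` be the restriction of `ρ` to `G_E`, twisted by the
character of `E(√d)/E`; this is again a family of the same kind, over `E`, on the same `(V, ψ)`.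
If `w` is a prime of `E` of degree one over the prime `v` of `K` and `w ∤ 2d`, its class at `w` is
`x_v` or `z x_v`, according to whether `d` is a square mod `w` or not; only these primes matter for
the limits.  We study the classes of all `ρ_{E,d}` together.
-/

set_option autoImplicit false

namespace Pool.Agent.Results.MP_4c4ce6_nt.LimitMeasures

open NumberField IsDedekindDomain Filter Topology Polynomial MeasureTheory

/-- `f` is a class function. -/
def IsClassFun {G : Type} [Group G] (f : G → ℝ) : Prop := ∀ y h : G, f (h * y * h⁻¹) = f y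

/-- Test functions: class functions with values in `[-1, 1]` and Lipschitz constant `1`. -/
def Test {G : Type} [Group G] [MetricSpace G] (f : G → ℝ) : Prop :=
  LipschitzWith 1 f ∧ (∀ y, |f y| ≤ 1) ∧ IsClassFun f

/-- Mean of `f` over the classes `c w` for the primes `w` of `E` of norm at most `N`. -/
noncomputable def meanClass {G : Type} (E : Type) [Field E] [NumberField E] (f : G → ℝ)
    (c : HeightOneSpectrum (𝓞 E) → G) (N : ℕ) : ℝ :=
  (∑ᶠ w : {w : HeightOneSpectrum (𝓞 E) // Ideal.absNorm w.asIdeal ≤ N}, f (c w.1)) /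
    (Nat.card {w : HeightOneSpectrum (𝓞 E) // Ideal.absNorm w.asIdeal ≤ N} : ℝ)

/-- The classes `c w` have the limit measure `μ` along the scales in `S`: for every continuous class
function `f` the mean over the primes of norm at most `N` tends to `∫ f dμ` for `N → ∞`, `N ∈ S`. -/
def EquidistributedAlong {G : Type} [Group G] [MetricSpace G] [MeasurableSpace G] {E : Type}
    [Field E] [NumberField E] (S : Set ℕ) (c : HeightOneSpectrum (𝓞 E) → G)
    (μ : ProbabilityMeasure G) : Prop :=
  ∀ f : G → ℝ, Continuous f → IsClassFun f →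
    Tendsto (meanClass E f c) (atTop ⊓ 𝓟 S) (𝓝 (∫ y, f y ∂(μ : Measure G)))

/-- For every finite extension `E` of `K` and `d ∈ 𝓞_E`, a choice of an element of `G` for every
prime of `E`. -/
abbrev Classes (K G : Type) [Field K] : Type :=
  ∀ (E : IntermediateField K (AlgebraicClosure K)) [NumberField E],
    𝓞 E → HeightOneSpectrum (𝓞 E) → G

/-- For every finite extension `E` of `K` and `d ∈ 𝓞_E`, a probability measure on `G`. -/
abbrev Measures (K G : Type) [Field K] [MeasurableSpace G] : Type :=
  ∀ (E : IntermediateField K (AlgebraicClosure K)) [NumberField E], 𝓞 E → ProbabilityMeasure G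

section
variable {K : Type} [Field K] [NumberField K]

/-- `c E d w` is the class of `ρ_{E,d}` at the prime `w` of `E`, where `x v` is the class of `ρ` at
`v` and `S₀` contains the bad primes: if `w` has degree one over `v ∉ S₀` and `2d ∉ w`, it is the
class of `x v` or of `z x v`, according to whether `d` is a square mod `w`.  There is no condition on
the values at the other primes. -/
def IsFamily {G : Type} [Group G] (z : G) (S₀ : Set (HeightOneSpectrum (𝓞 K)))
    (x : HeightOneSpectrum (𝓞 K) → G) (c : Classes K G) : Prop :=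
  ∀ (E : IntermediateField K (AlgebraicClosure K)) [NumberField E] (d : 𝓞 E)
    (w : HeightOneSpectrum (𝓞 E)) (v : HeightOneSpectrum (𝓞 K)), v ∉ S₀ →
    w.asIdeal.comap (algebraMap (𝓞 K) (𝓞 E)) = v.asIdeal →
    Ideal.absNorm w.asIdeal = Ideal.absNorm v.asIdeal → 2 * d ∉ w.asIdeal →
    (IsSquare (Ideal.Quotient.mk w.asIdeal d) → IsConj (c E d w) (x v)) ∧
    (¬ IsSquare (Ideal.Quotient.mk w.asIdeal d) → IsConj (c E d w) (z * x v))

/-- `d` as an element of the algebraic closure of `K`. -/
noncomputable def inj {E : IntermediateField K (AlgebraicClosure K)} (d : 𝓞 E) : AlgebraicClosure K :=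
  ((d : E) : AlgebraicClosure K)

/-- `√d ∉ E M`. -/
def NotIn (M : IntermediateField K (AlgebraicClosure K))
    {E : IntermediateField K (AlgebraicClosure K)} (d : 𝓞 E) : Prop :=
  ∀ y ∈ E ⊔ M, y ^ 2 ≠ inj d

/-- `d ∈ E` and `e ∈ E₀` (`E₀ = E ∩ M` below) are related: either `d e` is a square in `E` and
`√e ∈ M`, or `√d ∉ E M` and `√e ∉ M`. -/
def Related (M : IntermediateField K (AlgebraicClosure K))
    {E E₀ : IntermediateField K (AlgebraicClosure K)} (d : 𝓞 E) (e : 𝓞 E₀) : Prop :=
  ((∃ u ∈ E, u ^ 2 = inj d * inj e) ∧ ∃ t ∈ M, t ^ 2 = inj e) ∨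
    (NotIn M d ∧ ∀ y ∈ M, y ^ 2 ≠ inj e)

/-- If `√d ∉ E M` and `[E : K] ≤ n`, then `μ E d` is invariant under `z` up to `1/k`; in particular
`|∫ f dμ| < 1/(2k)` for the test functions with `f (z y) = - f y`. -/
def OddPart {G : Type} [Group G] [MetricSpace G] [MeasurableSpace G] (z : G) (n k : ℕ)
    (μ : Measures K G) (M : IntermediateField K (AlgebraicClosure K)) : Prop :=
  ∀ (E : IntermediateField K (AlgebraicClosure K)) [NumberField E] (d : 𝓞 E),
    Module.finrank K E ≤ n → d ≠ 0 → NotIn M d → ∀ f : G → ℝ, Test f →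
      |∫ y, f y ∂(μ E d : Measure G) - ∫ y, f (z * y) ∂(μ E d : Measure G)| < 1 / k

/-- If `e` over `E₀ = E ∩ M` is related to `d` over `E` and `[E : K] ≤ n`, then `μ E d` and `μ E₀ e`
agree up to `1/k`. -/
def Agreement {G : Type} [Group G] [MetricSpace G] [MeasurableSpace G] (n k : ℕ)
    (μ : Measures K G) (M : IntermediateField K (AlgebraicClosure K)) : Prop :=
  ∀ (E E₀ : IntermediateField K (AlgebraicClosure K)) [NumberField E] [NumberField E₀],
    E₀ = E ⊓ M → Module.finrank K E ≤ n → ∀ (d : 𝓞 E) (e : 𝓞 E₀), d ≠ 0 → e ≠ 0 →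
      Related M d e → ∀ f : G → ℝ, Test f →
      |∫ y, f y ∂(μ E d : Measure G) - ∫ y, f y ∂(μ E₀ e : Measure G)| < 1 / k

/-- There is a list of at most `2^(2([M : K] + 1))` pairs `(A, e)`, `A ⊆ M`, such that every pair
`(E, d)` is related to a member of the list over `E ∩ M`. -/
def FiniteList (M : IntermediateField K (AlgebraicClosure K)) : Prop :=
  ∃ (l : ℕ) (A : Fin l → IntermediateField K (AlgebraicClosure K)) (e : ∀ a, 𝓞 (A a)),
    l ≤ 2 ^ (2 * (Module.finrank K M + 1)) ∧
    (∀ a, A a ≤ M ∧ NumberField (A a) ∧ e a ≠ 0) ∧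
    ∀ (E : IntermediateField K (AlgebraicClosure K)) [NumberField E] (d : 𝓞 E),
      d ≠ 0 → ∃ a, A a = E ⊓ M ∧ Related M d (e a)

/-- The set `S` contains an infinite set `S'` along which the classes `c E d` have limit measures
`μ E d`, for all number fields `E ⊇ K` and all nonzero `d ∈ 𝓞_E`; and for every `k ≥ 1` there is a
finite Galois extension `M ⊇ L` of `K` with `[M : K] ≤ B(k) [L : K]` that governs all the measures
`μ E d`, `[E : K] ≤ n`, up to `1/k`. -/
def HasGovernedLimits {G : Type} [Group G] [MetricSpace G] [MeasurableSpace G] (B : ℕ → ℕ) (n : ℕ)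
    (z : G) (c : Classes K G) (L : IntermediateField K (AlgebraicClosure K)) (S : Set ℕ) : Prop :=
  ∃ S' ⊆ S, S'.Infinite ∧ ∃ μ : Measures K G,
    (∀ (E : IntermediateField K (AlgebraicClosure K)) [NumberField E] (d : 𝓞 E),
      d ≠ 0 → EquidistributedAlong S' (c E d) (μ E d)) ∧
    ∀ k : ℕ, 1 ≤ k → ∃ M : IntermediateField K (AlgebraicClosure K),
      L ≤ M ∧ FiniteDimensional K M ∧ IsGalois K M ∧
      Module.finrank K M ≤ B k * Module.finrank K L ∧
      OddPart z n k μ M ∧ Agreement n k μ M ∧ FiniteList M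

end

/-- **The limit measures of all base changes and quadratic twists.**  Let `G` be a compact metric
group and `n ≥ 0`.  There is a function `B` with the following property.  Let `z ∈ G` be central with
`z² = 1`, translation by `z` an isometry, `K` a number field, `(x, c)` a family of classes outside a
finite set of primes, `L/K` a finite Galois extension and `S` an infinite set of scales.  Then `S`
contains an infinite set `S'` along which, for all number fields `E ⊇ K` and all nonzero `d ∈ 𝓞_E`,
the classes of `ρ_{E,d}` have a limit measure `μ E d`; and for every `k ≥ 1` there is a finite Galois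
extension `M ⊇ L` of `K` with `[M : K] ≤ B(k) [L : K]` that governs all the measures `μ E d`,
`[E : K] ≤ n`, up to `1/k`. -/
theorem result (G : Type) [Group G] [MetricSpace G] [CompactSpace G] [MeasurableSpace G]
    [BorelSpace G] (n : ℕ) :
    ∃ B : ℕ → ℕ, ∀ z : G, z ∈ Subgroup.center G → z * z = 1 → Isometry (fun y : G => z * y) →
      ∀ (K : Type) [Field K] [NumberField K] (S₀ : Set (HeightOneSpectrum (𝓞 K)))
        (x : HeightOneSpectrum (𝓞 K) → G) (c : Classes K G)
        (L : IntermediateField K (AlgebraicClosure K)) [FiniteDimensional K L] [Normal K L]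
        (S : Set ℕ), S₀.Finite → IsFamily z S₀ x c → S.Infinite →
        HasGovernedLimits B n z c L S := by
  classical
  choose B hB using fun k : ℕ => Pool.Agent.W529.ST.main_U G n (k + 1) (Nat.le_add_left 1 k)
  refine ⟨fun k => B (k - 1), ?_⟩
  intro z hz hzz hiso K _ _ S₀ x c L _ _ S hS₀ hc hS
  obtain ⟨S', hS', hinf, μ, hμ⟩ := Pool.Agent.W529.ST.exists_limits
    (fun E _ d => Pool.Agent.W529.ST.can z x E d) S hS
  have hNB : (atTop ⊓ 𝓟 S' : Filter ℕ).NeBot :=
    frequently_mem_iff_neBot.1 (Nat.frequently_atTop_iff_infinite.2 hinf)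
  refine ⟨S', hS', hinf, μ, ?_, ?_⟩
  · intro E _ d hd f hf hcl
    obtain ⟨C, hC⟩ : ∃ C, ∀ y, |f y| ≤ C := by
      obtain ⟨C, hC⟩ := (isCompact_univ (X := G)).exists_bound_of_continuousOn hf.continuousOn
      exact ⟨C, fun y => hC y (Set.mem_univ y)⟩
    have h1 := (Pool.Agent.W529.ST.mean_can hz hS₀ hc f hcl hC E d hd).1
    have h2 := (h1.mono_left (inf_le_left : atTop ⊓ 𝓟 S' ≤ atTop)).add (hμ E d f hf)
    rw [zero_add] at h2
    refine h2.congr fun N => ?_
    rw [sub_add_cancel]
    rfl
  · intro k hk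
    obtain ⟨j, rfl⟩ : ∃ j, k = j + 1 := ⟨k - 1, by omega⟩
    let U : Ultrafilter ℕ := Ultrafilter.of (atTop ⊓ 𝓟 S')
    have hU0 : (U : Filter ℕ) ≤ atTop ⊓ 𝓟 S' := Ultrafilter.of_le _
    have hU : (U : Filter ℕ) ≤ atTop := hU0.trans inf_le_left
    obtain ⟨M, hLM, hM1, hM2, hM3, hdeg, hA, hR⟩ := hB j K (fun y => z * y)
      hiso.lipschitz (fun y => by rw [← mul_assoc, hzz, one_mul]) x
      (fun E _ d => Pool.Agent.W529.ST.can z x E d) (Pool.Agent.W529.ST.isFamily_can z x) L U hU
    refine ⟨M, hLM, hM1, hM2, ?_, ?_, ?_, Pool.Agent.W529.ST.list_C M⟩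
    · exact hdeg
    · intro E _ d hE hd hsq f hf
      have h1 := (hμ E d f hf.1.continuous).mono_left hU0
      have h2 := (hμ E d (fun y => f (z * y))
        (hf.1.continuous.comp hiso.continuous)).mono_left hU0
      exact hA E d hE hd hsq f ⟨hf.1, hf.2.1⟩ _ _ h1 h2
    · intro E E₀ _ _ hE₀ hE d e hd he hRel f hf
      have h1 := (hμ E d f hf.1.continuous).mono_left hU0
      have h2 := (hμ E₀ e f hf.1.continuous).mono_left hU0
      exact hR E E₀ hE₀ hE d e hd he hRel f ⟨hf.1, hf.2.1⟩ _ _ h1 h2

end Pool.Agent.Results.MP_4c4ce6_nt.LimitMeasures
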